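import Mathlib

/-!
# Project PU, piece PU-13: the constant
-/

open MeasureTheory Set Metric Filter Module
open scoped NNReal Topology RealInnerProductSpace ENNReal Real ContDiff Manifold

namespace Pool.Agent.Helper19.PU

variable {E : Type*} [NormedAddCommGroup E] [InnerProductSpace ℝ E]

private theorem p13_gamma (k : ℕ) :
    Real.Gamma ((k : ℝ) + 1 / 2) * (4 ^ k * (k.factorial : ℝ)) =
      ((2 * k).factorial : ℝ) * √π := by
  have h1 : (((2 * k).factorial : ℕ) : ℝ) =
      ((2 * k - 1).doubleFactorial : ℝ) * (2 ^ k * (k.factorial : ℝ)) := by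
    rcases k with _ | k
    · simp
    · have h2 : (2 * (k + 1)).factorial =
          (2 * (k + 1)).doubleFactorial * (2 * (k + 1) - 1).doubleFactorial := by
        have e : 2 * (k + 1) = (2 * k + 1) + 1 := by ring
        rw [e, Nat.factorial_eq_mul_doubleFactorial, Nat.add_sub_cancel]
      rw [h2, Nat.doubleFactorial_two_mul]
      push_cast
      ring
  have h2 : (4 : ℝ) ^ k = 2 ^ k * 2 ^ k := by
    rw [← mul_pow]
    norm_num
  rw [Real.Gamma_nat_add_half, h1, h2]
  field_simp

theorem const_eq [FiniteDimensional ℝ E] [MeasurableSpace E] [BorelSpace E]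
    (m : ℕ) (hm : 1 ≤ m) (hfr : finrank ℝ E = 2 * m + 2) :
    2 ^ (2 * m + 1) * π ^ (m + 1) * Real.Gamma (m + 1 / 2) / Real.Gamma (2 * m + 1 / 2)
      = 16 ^ m / ((4 * m).choose (2 * m) : ℝ) * (volume : Measure E).toSphere.real univ := by
  have : Nontrivial E := Module.nontrivial_of_finrank_pos (R := ℝ) (by omega)
  have hfr' : finrank ℝ E = 2 * (m + 1) := by omega
  have hS : (volume : Measure E).toSphere.real univ =
      (2 * (m : ℝ) + 2) * (π ^ (m + 1) / ((m + 1).factorial : ℝ)) := by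
    rw [Measure.toSphere_real_apply_univ, hfr, Measure.real,
      InnerProductSpace.volume_ball_of_dim_even hfr', ENNReal.ofReal_one, one_pow, one_mul,
      ENNReal.toReal_ofReal (by positivity)]
    push_cast
    ring
  have hC : (((4 * m).choose (2 * m) : ℕ) : ℝ) * ((2 * m).factorial : ℝ) ^ 2 =
      ((4 * m).factorial : ℝ) := by
    have h1 := Nat.choose_mul_factorial_mul_factorial (show 2 * m ≤ 4 * m by omega)
    have h2 : 4 * m - 2 * m = 2 * m := by omega
    rw [h2] at h1
    rw [← h1]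
    push_cast
    ring
  have hG1 := p13_gamma m
  have hG2 := p13_gamma (2 * m)
  have e2 : (((2 * m : ℕ) : ℝ) + 1 / 2) = 2 * (m : ℝ) + 1 / 2 := by push_cast; ring
  have e4 : 2 * (2 * m) = 4 * m := by ring
  rw [e2, e4] at hG2
  have hg2 : 0 < Real.Gamma (2 * (m : ℝ) + 1 / 2) := Real.Gamma_pos_of_pos (by positivity)
  have hf1 : (0 : ℝ) < (m.factorial : ℝ) := by positivity
  have hf2 : (0 : ℝ) < ((2 * m).factorial : ℝ) := by positivity
  have hf4 : (0 : ℝ) < ((4 * m).factorial : ℝ) := by positivity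
  have hc : (0 : ℝ) < (((4 * m).choose (2 * m) : ℕ) : ℝ) := by
    have := Nat.choose_pos (show 2 * m ≤ 4 * m by omega)
    exact_mod_cast this
  have hs : 0 < √π := Real.sqrt_pos.2 Real.pi_pos
  have hG1' : Real.Gamma ((m : ℝ) + 1 / 2) =
      ((2 * m).factorial : ℝ) * √π / (4 ^ m * (m.factorial : ℝ)) := by
    rw [eq_div_iff (by positivity)]
    exact hG1
  have hG2' : Real.Gamma (2 * (m : ℝ) + 1 / 2) =
      ((4 * m).factorial : ℝ) * √π / (4 ^ (2 * m) * ((2 * m).factorial : ℝ)) := by
    rw [eq_div_iff (by positivity)]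
    exact hG2
  have hfm : (((m + 1).factorial : ℕ) : ℝ) = ((m : ℝ) + 1) * (m.factorial : ℝ) := by
    rw [Nat.factorial_succ]
    push_cast
    ring
  have hp1 : (2 : ℝ) ^ (2 * m + 1) = 2 * 4 ^ m := by
    rw [pow_succ, pow_mul]
    norm_num
    ring
  have hp2 : (4 : ℝ) ^ (2 * m) = 16 ^ m := by
    rw [pow_mul]
    norm_num
  rw [hS, hG1', hG2', hfm, ← hC, hp1, hp2]
  have hm1 : (m : ℝ) + 1 ≠ 0 := by positivity
  field_simp

end Pool.Agent.Helper19.PU
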